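import Pool.Agent.Mg.Fc9886c.Gc5c821

set_option autoImplicit false

open MeasureTheory Pool.Agent.MP_c9886c_pr

namespace Pool.Agent.Results.MP_c9886c_pr.MeanAboveSpeed

/-- For every non-degenerate uniformly elliptic `s`-transient law with `s > 1`, the annealed mean
of `Z_n` is strictly larger than `v n` for every `n ≥ 1`. -/
theorem result (α : Measure ℝ) [IsProbabilityMeasure α]
    (hnd : ∀ a : ℝ, α ≠ Measure.dirac a)
    (c : ℝ) (hc : 0 < c) (hell : α (Set.Icc c (1 - c)) = 1)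
    (s : ℝ) (hs : 1 < s)
    (hlog : ∫ w, Real.log (rho w) ∂α < 0) (hmom : ∫ w, rho w ^ s ∂α = 1)
    (n : ℕ) (hn : 1 ≤ n) :
    speed α * (n : ℝ) < ∫ x, (x : ℝ) ∂(annealed α n) :=
  Pool.Agent.MP_c9886c_pr.main α hnd c hc hell s hs hlog hmom n hn

end Pool.Agent.Results.MP_c9886c_pr.MeanAboveSpeed
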